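import Pool.Agent.Work.MP_bec1e1_FIN_h39.Interface
import Pool.Agent.Work.MP_bec1e1_lv_h99.EXC
import Pool.Agent.Work.MP_bec1e1_lv_helper13.TDet
import Pool.Agent.Work.MP_bec1e1_TOOLP_h28.MGFC

/-!
# FIN, block UNI: adaptive union bound over all families
-/

set_option autoImplicit false
set_option maxHeartbeats 400000

open Filter Topology
open scoped BigOperators

namespace Pool.Agent.LCSV

open Pool.Agent.LCSE

noncomputable section

namespace UNI

variable {k : ℕ}

/-- weight of a family with history `h`: product of the weights of the prefixes -/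
def Wt (w : List (List (Fin k)) → ℝ) : List (List (Fin k)) → List (List (Fin k)) → ℝ
  | _, [] => 1
  | h, v :: vs => w (h ++ [v]) * Wt w (h ++ [v]) vs

/-- sum of the weights over all families of `M` consecutive windows from the first letter on -/
def SW (w : List (List (Fin k)) → ℝ) : ℕ → List (List (Fin k)) → List (Fin k) → ℝ
  | 0, _, _ => 1
  | M + 1, h, y => ∑ l ∈ Finset.range (y.length + 1),
      w (h ++ [y.take l]) * SW w M (h ++ [y.take l]) (y.drop l)

lemma SW_nonneg {w : List (List (Fin k)) → ℝ} (hw : ∀ h, 0 ≤ w h) (M : ℕ)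
    (h : List (List (Fin k))) (y : List (Fin k)) : 0 ≤ SW w M h y := by
  induction M generalizing h y with
  | zero => exact zero_le_one
  | succ M ih => exact Finset.sum_nonneg fun l _ => mul_nonneg (hw _) (ih _ _)

lemma Wt_le_SW {w : List (List (Fin k)) → ℝ} (hw : ∀ h, 0 ≤ w h) (vs : List (List (Fin k)))
    (h : List (List (Fin k))) (y : List (Fin k)) (hy : vs.flatten <+: y) :
    Wt w h vs ≤ SW w vs.length h y := by
  induction vs generalizing h y with
  | nil => exact le_rfl
  | cons v vs ih =>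
    obtain ⟨r, rfl⟩ := hy
    have h1 : (v :: vs).flatten ++ r = v ++ (vs.flatten ++ r) := by simp
    rw [h1]
    simp only [Wt, List.length_cons, SW]
    have h2 := Finset.single_le_sum (f := fun l => w (h ++ [(v ++ (vs.flatten ++ r)).take l]) *
      SW w vs.length (h ++ [(v ++ (vs.flatten ++ r)).take l]) ((v ++ (vs.flatten ++ r)).drop l))
      (s := Finset.range ((v ++ (vs.flatten ++ r)).length + 1))
      (fun l _ => mul_nonneg (hw _) (SW_nonneg hw _ _ _)) (a := v.length)
      (Finset.mem_range.mpr (by simp))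
    refine le_trans ?_ h2
    rw [List.take_left, List.drop_left]
    exact mul_le_mul_of_nonneg_left (ih _ _ ⟨r, rfl⟩) (hw _)

lemma Ex_SW_le {w : List (List (Fin k)) → ℝ} (hw : ∀ h, 0 ≤ w h) (c : ℕ → ℝ) (hc : ∀ j, 0 ≤ c j)
    (B M₀ : ℕ) (hb : ∀ (h : List (List (Fin k))) (b : ℕ), b ≤ B → h.length < M₀ →
      ∑ l ∈ Finset.range (b + 1), Ex k l (fun v => w (h ++ [v])) ≤ c h.length)
    (M : ℕ) (h : List (List (Fin k))) (b : ℕ) (hbB : b ≤ B) (hM : h.length + M ≤ M₀) :
    Ex k b (fun y => SW w M h y) ≤ ∏ j ∈ Finset.range M, c (h.length + j) := by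
  induction M generalizing h b with
  | zero =>
    rcases Nat.eq_zero_or_pos k with hk | hk
    · subst hk
      rcases Nat.eq_zero_or_pos b with hb0 | hb0
      · subst hb0; simp [SW]
      · obtain ⟨b, rfl⟩ := Nat.exists_eq_succ_of_ne_zero hb0.ne'
        simp [Ex_succ]
    · simp [SW, Ex_const hk]
  | succ M ih =>
    have h1 : Ex k b (fun y => SW w (M + 1) h y) = ∑ l ∈ Finset.range (b + 1),
        Ex k l (fun v => w (h ++ [v]) * Ex k (b - l) (fun y => SW w M (h ++ [v]) y)) := by
      have h2 : ∀ l ∈ Finset.range (b + 1), Ex k l (fun v => w (h ++ [v]) *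
          Ex k (b - l) (fun y => SW w M (h ++ [v]) y)) =
          Ex k b (fun y => w (h ++ [y.take l]) * SW w M (h ++ [y.take l]) (y.drop l)) := by
        intro l hl
        have hl' : l ≤ b := Nat.lt_succ_iff.mp (Finset.mem_range.mp hl)
        rw [Ex_take_drop hl' (fun u v => w (h ++ [u]) * SW w M (h ++ [u]) v)]
        refine Ex_congr fun v _ => ?_
        rw [Ex_const_mul]
      rw [Finset.sum_congr rfl h2, ← Ex_finset_sum]
      refine Ex_congr fun y hy => ?_
      simp only [SW, hy]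
    rw [h1]
    have hlen : ∀ v : List (Fin k), (h ++ [v]).length = h.length + 1 := fun v => by simp
    calc ∑ l ∈ Finset.range (b + 1),
        Ex k l (fun v => w (h ++ [v]) * Ex k (b - l) (fun y => SW w M (h ++ [v]) y))
        ≤ ∑ l ∈ Finset.range (b + 1), Ex k l (fun v => w (h ++ [v]) *
          ∏ j ∈ Finset.range M, c (h.length + 1 + j)) := by
          refine Finset.sum_le_sum fun l _ => Ex_mono fun v _ => ?_
          apply mul_le_mul_of_nonneg_left _ (hw _)
          have := ih (h ++ [v]) (b - l) ((Nat.sub_le _ _).trans hbB) (by rw [hlen]; omega)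
          rwa [hlen] at this
      _ = (∑ l ∈ Finset.range (b + 1), Ex k l (fun v => w (h ++ [v]))) *
          ∏ j ∈ Finset.range M, c (h.length + 1 + j) := by
          rw [Finset.sum_mul]
          exact Finset.sum_congr rfl fun l _ => Ex_mul_const _ _ _
      _ ≤ c h.length * ∏ j ∈ Finset.range M, c (h.length + 1 + j) :=
          mul_le_mul_of_nonneg_right (hb h b hbB (by omega))
            (Finset.prod_nonneg fun j _ => hc _)
      _ = ∏ j ∈ Finset.range (M + 1), c (h.length + j) := by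
          rw [Finset.prod_range_succ', mul_comm]
          simp only [Nat.add_zero]
          congr 1
          exact Finset.prod_congr rfl fun j _ => by rw [show h.length + 1 + j = h.length + (j + 1) by ring]

lemma Wt_eq_prod (w : List (List (Fin k)) → ℝ) (vs h : List (List (Fin k))) :
    Wt w h vs = ∏ j ∈ Finset.range vs.length, w (h ++ vs.take (j + 1)) := by
  induction vs generalizing h with
  | nil => simp [Wt]
  | cons v vs ih =>
    rw [List.length_cons, Finset.prod_range_succ', Wt, ih, mul_comm]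
    simp

lemma prod_blocks (a : ℕ → ℝ) (m q : ℕ) :
    ∏ j ∈ Finset.range (m * q), a j =
      ∏ i ∈ Finset.range m, ∏ r ∈ Finset.range q, a (i * q + r) := by
  induction m with
  | zero => simp
  | succ m ih =>
    rw [Nat.succ_mul, Finset.prod_range_add, ih, Finset.prod_range_succ]

/-! ### locality of `Bad` -/

lemma Bad_congr {s n nb K₁ : ℕ} {lam ζ ε₁ : ℝ} {us : ℕ → List (Fin k)}
    {vs vs' : List (List (Fin k))} {i t : ℕ} (h : ∀ i' ≤ i, Wd nb vs i' t = Wd nb vs' i' t) :
    Bad k s n nb K₁ lam ζ ε₁ us vs i t ↔ Bad k s n nb K₁ lam ζ ε₁ us vs' i t := by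
  have hs : ∀ u, Surv k s n nb ζ ε₁ us vs i t u ↔ Surv k s n nb ζ ε₁ us vs' i t u := by
    intro u
    unfold Surv
    constructor
    · intro H i' hi'
      rw [← h i' hi'.le, ← h i le_rfl]
      exact H i' hi'
    · intro H i' hi'
      rw [h i' hi'.le, h i le_rfl]
      exact H i' hi'
  simp only [Bad, h i le_rfl, hs]

lemma Wd_take {nb : ℕ} (vs : List (List (Fin k))) {i i' t : ℕ} (hi : i' ≤ i) :
    Wd nb (vs.take (i * (nb + 1) + 1 + t + 1)) i' t = Wd nb vs i' t := by
  unfold Wd
  have h1 : i' * (nb + 1) + 1 + t < i * (nb + 1) + 1 + t + 1 := by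
    have := Nat.mul_le_mul_right (nb + 1) hi
    omega
  rw [List.getD_eq_getElem?_getD, List.getD_eq_getElem?_getD, List.getElem?_take_of_lt h1]

lemma Wd_append_self {nb : ℕ} (h : List (List (Fin k))) (v : List (Fin k)) {i t : ℕ}
    (hl : h.length = i * (nb + 1) + 1 + t) : Wd nb (h ++ [v]) i t = v := by
  unfold Wd
  rw [List.getD_eq_getElem?_getD, List.getElem?_append_right (by omega)]
  simp [hl]

lemma Wd_append_lt {nb : ℕ} (h : List (List (Fin k))) (v : List (Fin k)) {i i' t : ℕ}
    (hl : h.length = i * (nb + 1) + 1 + t) (hi : i' < i) : Wd nb (h ++ [v]) i' t = Wd nb h i' t := by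
  unfold Wd
  have h1 : i' * (nb + 1) + 1 + t < h.length := by
    have := Nat.mul_le_mul_right (nb + 1) (Nat.succ_le_of_lt hi)
    rw [Nat.succ_mul] at this
    omega
  rw [List.getD_eq_getElem?_getD, List.getD_eq_getElem?_getD, List.getElem?_append_left h1]

/-- weight of the last window of a history -/
def wgt (nb Wm : ℕ) (μ : ℝ) (bad : List (List (Fin k)) → ℕ → ℕ → Prop)
    (h : List (List (Fin k))) : ℝ :=
  if (h.length - 1) % (nb + 1) = 0 then 1 else
    if (h.getD (h.length - 1) []).length ≤ Wm then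
      1 + (μ ^ 2 - 1) * ind (bad h ((h.length - 1) / (nb + 1)) ((h.length - 1) % (nb + 1) - 1))
    else 0

lemma wgt_nonneg {nb Wm : ℕ} {μ : ℝ} (hμ : 1 ≤ μ) (bad : List (List (Fin k)) → ℕ → ℕ → Prop)
    (h : List (List (Fin k))) : 0 ≤ wgt nb Wm μ bad h := by
  unfold wgt
  split_ifs
  · exact zero_le_one
  · have : 0 ≤ (μ ^ 2 - 1) := by nlinarith
    have h2 := ind_nonneg (bad h ((h.length - 1) / (nb + 1)) ((h.length - 1) % (nb + 1) - 1))
    nlinarith [mul_nonneg this h2]
  · exact le_rfl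

/-- **adaptive union bound** -/
theorem union_family (hk : 0 < k) (nb Wm m b : ℕ) (μ : ℝ) (hμ : 1 ≤ μ)
    (bad : List (List (Fin k)) → ℕ → ℕ → Prop)
    (hloc : ∀ vs i t, i < m → t < nb →
      (bad (vs.take (i * (nb + 1) + 1 + t + 1)) i t ↔ bad vs i t))
    (hp : ∀ (h : List (List (Fin k))) (i t ℓ : ℕ), i < m → t < nb →
      h.length = i * (nb + 1) + 1 + t → ℓ ≤ Wm →
      (Ex k ℓ fun v => ind (bad (h ++ [v]) i t)) ≤ 3 / μ ^ 2) :
    (Ex k b fun y => ind (∃ vs : List (List (Fin k)), Fam m nb Wm y vs ∧ ∀ t < nb,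
      m ≤ 2 * (∑ i ∈ Finset.range m, ind (bad vs i t)))) ≤
      (((b : ℝ) + 1) * (4 * (Wm + 1) / μ) ^ nb) ^ m := by
  have hμ0 : 0 < μ := by linarith
  set w := wgt (k := k) nb Wm μ bad with hw
  have hw0 : ∀ h, 0 ≤ w h := fun h => wgt_nonneg hμ bad h
  set c : ℕ → ℝ := fun j => if j % (nb + 1) = 0 then (b : ℝ) + 1 else 4 * ((Wm : ℝ) + 1) with hc
  have hc0 : ∀ j, 0 ≤ c j := by
    intro j; simp only [hc]; split_ifs <;> positivity
  -- one step
  have hstep : ∀ (h : List (List (Fin k))) (b' : ℕ), b' ≤ b → h.length < m * (nb + 1) →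
      ∑ l ∈ Finset.range (b' + 1), Ex k l (fun v => w (h ++ [v])) ≤ c h.length := by
    intro h b' hb' hlt
    by_cases h0 : h.length % (nb + 1) = 0
    · have h1 : ∀ v : List (Fin k), w (h ++ [v]) = 1 := by
        intro v; simp only [hw, wgt, List.length_append, List.length_singleton,
          Nat.add_sub_cancel, h0, if_true]
      simp only [h1, hc, h0, if_true, Ex_const hk]
      simp only [Finset.sum_const, Finset.card_range, nsmul_eq_mul, mul_one]
      push_cast
      have : (b' : ℝ) ≤ b := by exact_mod_cast hb'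
      linarith
    · set j := h.length with hj
      set i := j / (nb + 1) with hi
      set t := j % (nb + 1) - 1 with ht
      have hmod : j % (nb + 1) < nb + 1 := Nat.mod_lt _ (Nat.succ_pos _)
      have ht' : t < nb := by omega
      have hi' : i < m := by
        rw [hi]; exact Nat.div_lt_of_lt_mul (by rw [mul_comm]; exact hlt)
      have hj' : j = i * (nb + 1) + 1 + t := by
        have := Nat.div_add_mod j (nb + 1)
        rw [← hi, mul_comm] at this
        omega
      have h1 : ∀ v : List (Fin k), w (h ++ [v]) = if v.length ≤ Wm then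
          1 + (μ ^ 2 - 1) * ind (bad (h ++ [v]) i t) else 0 := by
        intro v
        have h2 : (h ++ [v]).length - 1 = j := by simp [hj]
        have h3 : (h ++ [v]).getD j [] = v := by
          rw [List.getD_eq_getElem?_getD, List.getElem?_append_right (by omega)]
          simp [hj]
        simp only [hw, wgt, h2, h0, if_false, h3, ← hi, ← ht]
      have h2 : ∀ l : ℕ, Ex k l (fun v => w (h ++ [v])) ≤ if l ≤ Wm then 4 else 0 := by
        intro l
        by_cases hl : l ≤ Wm
        · rw [if_pos hl]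
          have h3 : Ex k l (fun v => w (h ++ [v])) =
              Ex k l (fun v => 1 + (μ ^ 2 - 1) * ind (bad (h ++ [v]) i t)) := by
            refine Ex_congr fun v hv => ?_
            rw [h1, if_pos (by rw [hv]; exact hl)]
          rw [h3, Ex_add, Ex_const hk, Ex_const_mul]
          have h4 := hp h i t l hi' ht' hj' hl
          have h5 : 0 ≤ μ ^ 2 - 1 := by nlinarith
          have h6 : (μ ^ 2 - 1) * (Ex k l fun v => ind (bad (h ++ [v]) i t)) ≤
              (μ ^ 2 - 1) * (3 / μ ^ 2) := mul_le_mul_of_nonneg_left h4 h5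
          have h7 : (μ ^ 2 - 1) * (3 / μ ^ 2) ≤ 3 := by
            rw [mul_div_assoc', div_le_iff₀ (by positivity)]; nlinarith
          linarith
        · rw [if_neg hl]
          have h3 : Ex k l (fun v => w (h ++ [v])) = Ex k l (fun _ => 0) := by
            refine Ex_congr fun v hv => ?_
            rw [h1, if_neg (by rw [hv]; exact hl)]
          rw [h3, Ex_zero_fun]
      calc ∑ l ∈ Finset.range (b' + 1), Ex k l (fun v => w (h ++ [v]))
          ≤ ∑ l ∈ Finset.range (b' + 1), (if l ≤ Wm then (4 : ℝ) else 0) :=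
            Finset.sum_le_sum fun l _ => h2 l
        _ = ∑ l ∈ (Finset.range (b' + 1)).filter (· ≤ Wm), (4 : ℝ) := by
            rw [Finset.sum_filter]
        _ ≤ ∑ l ∈ Finset.range (Wm + 1), (4 : ℝ) := by
            apply Finset.sum_le_sum_of_subset_of_nonneg
            · intro l hl
              simp only [Finset.mem_filter, Finset.mem_range] at hl ⊢
              omega
            · intros; norm_num
        _ = c j := by
            simp only [hc, h0, if_false, Finset.sum_const, Finset.card_range, nsmul_eq_mul]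
            push_cast; ring
  have hmain := Ex_SW_le hw0 c hc0 b (m * (nb + 1)) hstep (m * (nb + 1)) [] b le_rfl (by simp)
  simp only [List.length_nil, Nat.zero_add] at hmain
  -- product of the constants
  have hprod : ∏ j ∈ Finset.range (m * (nb + 1)), c j =
      (((b : ℝ) + 1) * (4 * (Wm + 1)) ^ nb) ^ m := by
    rw [prod_blocks]
    have h1 : ∀ i ∈ Finset.range m, ∏ r ∈ Finset.range (nb + 1), c (i * (nb + 1) + r) =
        ((b : ℝ) + 1) * (4 * (Wm + 1)) ^ nb := by
      intro i _
      rw [Finset.prod_range_succ', mul_comm]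
      have h2 : c (i * (nb + 1) + 0) = (b : ℝ) + 1 := by
        simp [hc]
      have h3 : ∀ r ∈ Finset.range nb, c (i * (nb + 1) + (r + 1)) = 4 * ((Wm : ℝ) + 1) := by
        intro r hr
        have hr' := Finset.mem_range.mp hr
        have : (i * (nb + 1) + (r + 1)) % (nb + 1) = r + 1 := by
          rw [Nat.add_comm, Nat.add_mul_mod_self_right, Nat.mod_eq_of_lt (by omega)]
        simp only [hc, this]
        rw [if_neg (by omega)]
      rw [h2, Finset.prod_congr rfl h3, Finset.prod_const, Finset.card_range]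
    rw [Finset.prod_congr rfl h1, Finset.prod_const, Finset.card_range]
  -- lower bound for the weight of a bad family
  have hlow : ∀ y : List (Fin k), y.length = b → μ ^ (nb * m) *
      ind (∃ vs : List (List (Fin k)), Fam m nb Wm y vs ∧ ∀ t < nb,
        m ≤ 2 * (∑ i ∈ Finset.range m, ind (bad vs i t))) ≤ SW w (m * (nb + 1)) [] y := by
    intro y hy
    by_cases hex : ∃ vs : List (List (Fin k)), Fam m nb Wm y vs ∧ ∀ t < nb,
        (m : ℝ) ≤ 2 * (∑ i ∈ Finset.range m, ind (bad vs i t))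
    · rw [ind_of hex, mul_one]
      obtain ⟨vs, ⟨hlen, hpre, hwid⟩, hbad⟩ := hex
      have h1 := Wt_le_SW hw0 vs [] y hpre
      rw [hlen] at h1
      refine le_trans ?_ h1
      rw [Wt_eq_prod, hlen, prod_blocks]
      simp only [List.nil_append]
      have h2 : ∀ i ∈ Finset.range m, ∏ r ∈ Finset.range (nb + 1),
          w (vs.take (i * (nb + 1) + r + 1)) =
          ∏ t ∈ Finset.range nb, (1 + (μ ^ 2 - 1) * ind (bad vs i t)) := by
        intro i hi
        have hi' := Finset.mem_range.mp hi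
        have hq : (i + 1) * (nb + 1) ≤ m * (nb + 1) := Nat.mul_le_mul_right _ hi'
        rw [Nat.succ_mul] at hq
        rw [Finset.prod_range_succ']
        have h3 : w (vs.take (i * (nb + 1) + 0 + 1)) = 1 := by
          have h4 : (vs.take (i * (nb + 1) + 0 + 1)).length - 1 = i * (nb + 1) := by
            rw [List.length_take, hlen]; omega
          simp only [hw, wgt, h4]
          simp
        rw [h3, mul_one]
        refine Finset.prod_congr rfl fun t ht => ?_
        have ht' := Finset.mem_range.mp ht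
        have h4 : (vs.take (i * (nb + 1) + (t + 1) + 1)).length - 1 = i * (nb + 1) + (t + 1) := by
          rw [List.length_take, hlen]; omega
        have h5 : (i * (nb + 1) + (t + 1)) % (nb + 1) = t + 1 := by
          rw [Nat.add_comm, Nat.add_mul_mod_self_right, Nat.mod_eq_of_lt (by omega)]
        have h6 : (i * (nb + 1) + (t + 1)) / (nb + 1) = i := by
          rw [Nat.add_comm, Nat.add_mul_div_right _ _ (Nat.succ_pos _),
            Nat.div_eq_of_lt (by omega), Nat.zero_add]
        have h7 : (vs.take (i * (nb + 1) + (t + 1) + 1)).getD (i * (nb + 1) + (t + 1)) [] =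
            Wd nb vs i t := by
          unfold Wd
          rw [List.getD_eq_getElem?_getD, List.getElem?_take_of_lt (by omega),
            List.getD_eq_getElem?_getD]
          congr 2; ring
        have h8 : (Wd nb vs i t).length ≤ Wm := hwid i hi' t ht'
        have h9 : i * (nb + 1) + (t + 1) + 1 = i * (nb + 1) + 1 + t + 1 := by ring
        simp only [hw, wgt, h4, h5, h6, h7, Nat.add_sub_cancel]
        rw [if_neg (Nat.succ_ne_zero t), if_pos h8, h9, ind_congr (hloc vs i t hi' ht')]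
      rw [Finset.prod_congr rfl h2, Finset.prod_comm]
      have h3 : ∀ t ∈ Finset.range nb, μ ^ m ≤
          ∏ i ∈ Finset.range m, (1 + (μ ^ 2 - 1) * ind (bad vs i t)) := by
        intro t ht
        have ht' := Finset.mem_range.mp ht
        classical
        have h4 : ∀ i ∈ Finset.range m, (1 + (μ ^ 2 - 1) * ind (bad vs i t)) =
            if bad vs i t then μ ^ 2 else 1 := by
          intro i _
          by_cases hb : bad vs i t
          · rw [ind_of hb, if_pos hb]; ring
          · rw [ind_of_not hb, if_neg hb]; ring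
        rw [Finset.prod_congr rfl h4, Finset.prod_ite, Finset.prod_const, Finset.prod_const_one,
          mul_one, ← pow_mul]
        apply pow_le_pow_right₀ hμ
        have h5 := hbad t ht'
        have h6 : ∑ i ∈ Finset.range m, ind (bad vs i t) =
            (((Finset.range m).filter fun i => bad vs i t).card : ℝ) := by
          rw [Finset.card_filter]
          push_cast
          refine Finset.sum_congr rfl fun i _ => ?_
          rw [ind_eq_ite]
        rw [h6] at h5
        exact_mod_cast h5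
      calc μ ^ (nb * m) = ∏ t ∈ Finset.range nb, μ ^ m := by
            rw [Finset.prod_const, Finset.card_range, ← pow_mul, mul_comm]
        _ ≤ _ := Finset.prod_le_prod (fun _ _ => by positivity) h3
    · rw [ind_of_not hex, mul_zero]
      exact SW_nonneg hw0 _ _ _
  have h1 := Ex_mono hlow
  rw [Ex_const_mul] at h1
  have h2 := h1.trans (hmain.trans (le_of_eq hprod))
  have h3 : (((b : ℝ) + 1) * (4 * (Wm + 1) / μ) ^ nb) ^ m =
      (((b : ℝ) + 1) * (4 * (Wm + 1)) ^ nb) ^ m / μ ^ (nb * m) := by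
    rw [div_pow, mul_div_assoc', div_pow, ← pow_mul]
  rw [h3, le_div_iff₀ (by positivity), mul_comm]
  exact h2

/-! ### probability of a bad window given the history -/

lemma phi_diag (hphi : PhiFacts k) (n : ℕ) : Phi k n n = gam k * n := by
  have h := hphi.hom n 1 1 (Nat.cast_nonneg _) zero_le_one zero_le_one
  rw [mul_one] at h
  rw [h, gam, mul_comm]

/-- typical windows: quenched lower tail -/
lemma lower_tail (hk : 0 < k) {C ε : ℝ} (hC : 0 < C) (hε : 0 < ε) (hphi : PhiFacts k)
    (hDEF : ∀ a b : ℕ, Phi k a b - F k a b ≤ C * √((a : ℝ) + b)) (n : ℕ)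
    (hn : 8 * C ^ 2 / ε ^ 2 ≤ n) :
    (Ex k n fun V => ind ((Ex k n fun u => (L u V : ℝ)) < (gam k - ε) * n)) ≤
      Real.exp (-(ε ^ 2 * n / 2)) := by
  rcases Nat.eq_zero_or_pos n with hn0 | hn0
  · subst hn0
    simp only [Nat.cast_zero, mul_zero, zero_div, neg_zero, Real.exp_zero]
    exact Ex_le_const hk fun w _ => ind_le_one _
  have hn' : (0 : ℝ) < n := by exact_mod_cast hn0
  have h8 : 8 * C ^ 2 ≤ ε ^ 2 * n := by
    rw [div_le_iff₀ (by positivity)] at hn; linarith
  set φ : List (Fin k) → ℝ := fun V => -(Ex k n fun u => (L u V : ℝ)) with hφ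
  have hmean : Ex k n φ = - F k n n := by
    rw [hφ, Ex_neg]
    unfold F
    rw [Ex_comm]
  have hdef := hDEF n n
  rw [phi_diag hphi] at hdef
  have hsq : C * √((n : ℝ) + n) ≤ ε * n / 2 := by
    rw [← Real.sqrt_sq (show 0 ≤ ε * n / 2 by positivity)]
    rw [← Real.sqrt_sq hC.le, ← Real.sqrt_mul (by positivity)]
    apply Real.sqrt_le_sqrt
    nlinarith
  have hosc : ∀ (l₁ l₂ : List (Fin k)) (e e' : Fin k), l₁.length + l₂.length + 1 = n →
      |φ (l₁ ++ e :: l₂) - φ (l₁ ++ e' :: l₂)| ≤ 1 := by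
    intro l₁ l₂ e e' _
    have h1 : φ (l₁ ++ e :: l₂) - φ (l₁ ++ e' :: l₂) =
        Ex k n fun u => ((L u (l₁ ++ e' :: l₂) : ℝ) - L u (l₁ ++ e :: l₂)) := by
      rw [Ex_sub, hφ]; ring
    rw [h1]
    have h2 : ∀ u : List (Fin k), |(L u (l₁ ++ e' :: l₂) : ℝ) - L u (l₁ ++ e :: l₂)| ≤ 1 := by
      intro u
      rw [L_comm u, L_comm u]
      exact stmt_LIP k l₁ l₂ u e' e
    rw [abs_le]
    exact ⟨const_le_Ex hk fun u _ => (abs_le.mp (h2 u)).1, Ex_le_const hk fun u _ =>
      (abs_le.mp (h2 u)).2⟩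
  have htail := MGFAux.Ex_tail hk n φ 1 one_pos hosc (ε * n / 2) (by positivity)
  rw [hmean] at htail
  refine (Ex_mono fun V _ => ind_mono ?_).trans (htail.trans (le_of_eq ?_))
  · intro h
    rw [hφ]
    simp only
    linarith
  · congr 1
    field_simp

lemma cond_bad {C p q Pl Pu : ℝ} (W : World k C p q Pl Pu) {lam ζ c : ℝ} (hc : 0 < c)
    {K₁ B : ℕ} (hK : 1 ≤ K₁) (hB : 1 ≤ B) {ε₁ η : ℝ} (hε : 0 < ε₁) (hη : 0 < η)
    (hL : ∀ᶠ n : ℕ in atTop, ∀ B : List (Fin k) → Prop, 1 / 2 ≤ (Ex k n fun u => ind (B u)) →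
    (Ex k n fun V => ind ((Ex k n fun u => ind (B u ∧ (gam k + ζ) * n ≤ (L u V : ℝ))) <
      Real.exp (-(lam * ζ * n)))) ≤ Real.exp (-(c * n))) :
    ∀ᶠ s : ℕ in atTop, ∀ (nb Wc : ℕ) (us : ℕ → List (Fin k)) (h : List (List (Fin k)))
      (i t ℓ : ℕ), TU k (B * s) (Wc * s) ε₁ η (us t) → h.length = i * (nb + 1) + 1 + t →
      ℓ ≤ Wc * s →
      (Ex k ℓ fun v => ind (Bad k s (B * s) nb K₁ lam ζ ε₁ us (h ++ [v]) i t)) ≤
        3 * Real.exp (-(min (min c η) (ε₁ ^ 2 / 2) * s)) := by
  obtain ⟨n₁, hn₁⟩ := eventually_atTop.mp hL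
  have hk : 0 < k := by have := W.hk; omega
  obtain ⟨n₂, hn₂⟩ := exists_nat_ge (8 * C ^ 2 / ε₁ ^ 2)
  filter_upwards [eventually_ge_atTop n₁, eventually_ge_atTop n₂, eventually_ge_atTop 1]
    with s hs1 hs2 hs3
  intro nb Wc us h i t ℓ hTU hh hℓ
  have hs0 : (0 : ℝ) ≤ s := Nat.cast_nonneg _
  have hs2' : (8 * C ^ 2 / ε₁ ^ 2) ≤ (s : ℝ) := hn₂.trans (by exact_mod_cast hs2)
  have hBs : (s : ℝ) ≤ ((B * s : ℕ) : ℝ) := by
    exact_mod_cast Nat.le_mul_of_pos_left s hB
  set cc := min (min c η) (ε₁ ^ 2 / 2) with hcc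
  have hcc1 : cc ≤ c := (min_le_left _ _).trans (min_le_left _ _)
  have hcc2 : cc ≤ η := (min_le_left _ _).trans (min_le_right _ _)
  have hcc3 : cc ≤ ε₁ ^ 2 / 2 := min_le_right _ _
  have hcc0 : 0 < cc := lt_min (lt_min hc hη) (by positivity)
  -- the set of survivors
  set S : List (Fin k) → Prop := fun u => ∀ i' < i, (Wd nb h i' t).length / s = ℓ / s →
    ¬ BadA k (B * s) ε₁ (us t) (Wd nb h i' t) → ¬ Lk k ζ u (Wd nb h i' t) with hS
  have hSurv : ∀ v : List (Fin k), v.length = ℓ → ∀ u,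
      Surv k s (B * s) nb ζ ε₁ us (h ++ [v]) i t u ↔ S u := by
    intro v hv u
    unfold Surv
    rw [hS]
    simp only
    constructor
    · intro H i' hi' h1 h2
      have := H i' hi'
      rw [Wd_append_self h v hh, Wd_append_lt h v hh hi', hv] at this
      exact this h1 h2
    · intro H i' hi'
      rw [Wd_append_self h v hh, Wd_append_lt h v hh hi', hv]
      exact H i' hi'
  set n' := ℓ / s * s with hn'
  have hn'ℓ : n' ≤ ℓ := Nat.div_mul_le_self ℓ s
  set A2 : List (Fin k) → Prop := fun V => (Ex k n' fun u =>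
    ind (S u ∧ (gam k + ζ) * n' ≤ (L u V : ℝ))) < Real.exp (-(lam * ζ * n')) with hA2
  set M := K₁ * (B * s) with hM
  set A3 : List (Fin k) → Prop := fun V => (Ex k M fun u => (L u V : ℝ)) <
    (gam k - ε₁) * (M : ℕ) with hA3
  have hsplit : ∀ v : List (Fin k), v.length = ℓ →
      ind (Bad k s (B * s) nb K₁ lam ζ ε₁ us (h ++ [v]) i t) ≤
      ind (BadA k (B * s) ε₁ (us t) v) +
      ind (s ≤ ℓ ∧ 1 / 2 ≤ (Ex k n' fun u => ind (S u)) ∧ A2 (v.take n')) +
      ind (M ≤ ℓ ∧ A3 (v.take M)) := by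
    intro v hv
    apply ind_le_add₃
    intro hbad
    unfold Bad at hbad
    rw [Wd_append_self h v hh, hv] at hbad
    rcases hbad with h1 | ⟨h1, h2, h3, h4⟩ | ⟨h1, h2⟩
    · exact Or.inl h1
    · refine Or.inr (Or.inl ⟨h1, ?_, ?_⟩)
      · simpa only [hSurv v hv] using h3
      · rw [hA2]
        simp only
        refine lt_of_le_of_lt (le_of_eq ?_) h4
        refine Ex_congr fun u hu => ?_
        rw [hSurv v hv]
        unfold Lk
        rw [hu]
    · exact Or.inr (Or.inr ⟨h1, h2⟩)
  refine (Ex_mono hsplit).trans ?_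
  rw [Ex_add, Ex_add]
  have h1 : (Ex k ℓ fun v => ind (BadA k (B * s) ε₁ (us t) v)) ≤ Real.exp (-(cc * s)) := by
    refine (hTU ℓ hℓ).trans (Real.exp_le_exp.mpr ?_)
    have : cc * s ≤ η * ((B * s : ℕ) : ℝ) := mul_le_mul hcc2 hBs hs0 hη.le
    linarith
  have h2 : (Ex k ℓ fun v => ind (s ≤ ℓ ∧ 1 / 2 ≤ (Ex k n' fun u => ind (S u)) ∧
      A2 (v.take n'))) ≤ Real.exp (-(cc * s)) := by
    by_cases hcase : s ≤ ℓ ∧ 1 / 2 ≤ (Ex k n' fun u => ind (S u))
    · have hsn : s ≤ n' := by
        rw [hn']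
        exact Nat.le_mul_of_pos_left s (Nat.div_pos hcase.1 hs3)
      have h3 : (Ex k ℓ fun v => ind (s ≤ ℓ ∧ 1 / 2 ≤ (Ex k n' fun u => ind (S u)) ∧
          A2 (v.take n'))) ≤ Ex k ℓ fun v => ind (A2 (v.take n')) :=
        Ex_ind_mono fun v _ h => h.2.2
      refine h3.trans ?_
      rw [Ex_take hk hn'ℓ (fun V => ind (A2 V))]
      refine (hn₁ n' (hs1.trans hsn) S hcase.2).trans (Real.exp_le_exp.mpr ?_)
      have h4 : (s : ℝ) ≤ n' := by exact_mod_cast hsn
      have : cc * s ≤ c * n' := mul_le_mul hcc1 h4 hs0 hc.le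
      linarith
    · have h3 : (Ex k ℓ fun v => ind (s ≤ ℓ ∧ 1 / 2 ≤ (Ex k n' fun u => ind (S u)) ∧
          A2 (v.take n'))) = Ex k ℓ fun _ => 0 := by
        refine Ex_congr fun v _ => ind_of_not ?_
        rintro ⟨a, b, -⟩
        exact hcase ⟨a, b⟩
      rw [h3, Ex_zero_fun]
      exact (Real.exp_pos _).le
  have h3 : (Ex k ℓ fun v => ind (M ≤ ℓ ∧ A3 (v.take M))) ≤ Real.exp (-(cc * s)) := by
    by_cases hcase : M ≤ ℓ
    · have h4 : (Ex k ℓ fun v => ind (M ≤ ℓ ∧ A3 (v.take M))) ≤
          Ex k ℓ fun v => ind (A3 (v.take M)) := Ex_ind_mono fun v _ h => h.2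
      refine h4.trans ?_
      rw [Ex_take hk hcase (fun V => ind (A3 V))]
      have hMs : (s : ℝ) ≤ (M : ℝ) := by
        refine hBs.trans ?_
        rw [hM]
        exact_mod_cast Nat.le_mul_of_pos_left (B * s) hK
      refine (lower_tail hk W.C0 hε W.phi W.DEF M (hs2'.trans hMs)).trans
        (Real.exp_le_exp.mpr ?_)
      have : cc * s ≤ ε₁ ^ 2 / 2 * M := mul_le_mul hcc3 hMs hs0 (by positivity)
      linarith
    · have h4 : (Ex k ℓ fun v => ind (M ≤ ℓ ∧ A3 (v.take M))) = Ex k ℓ fun _ => 0 := by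
        refine Ex_congr fun v _ => ind_of_not ?_
        rintro ⟨a, -⟩
        exact hcase a
      rw [h4, Ex_zero_fun]
      exact (Real.exp_pos _).le
  linarith

lemma bb_le {C p q Pl Pu : ℝ} (W : World k C p q Pl Pu) (s : ℕ) : bb k s ≤ k * k ^ (4 * s) * s := by
  have hk : 1 ≤ k := by have := W.hk; omega
  unfold bb
  split_ifs with h
  · unfold NN
    calc k ^ (4 * s) * s = 1 * k ^ (4 * s) * s := by ring
      _ ≤ k * k ^ (4 * s) * s := by gcongr
  · apply Nat.floor_le_of_le
    have h1 := W.phi.rho_lt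
    have h2 := W.phi.rho_one
    have h3 : (0 : ℝ) ≤ HH k s := Nat.cast_nonneg _
    have h4 : (NN k s : ℝ) = (k : ℝ) ^ (4 * s) := by unfold NN; push_cast; rfl
    push_cast
    rw [← h4]
    have h5 : (0 : ℝ) ≤ NN k s := Nat.cast_nonneg _
    have h6 : (0 : ℝ) ≤ s := Nat.cast_nonneg _
    calc rho k * ((NN k s : ℝ) - HH k s) * s ≤ rho k * (NN k s : ℝ) * s := by
          apply mul_le_mul_of_nonneg_right _ h6
          apply mul_le_mul_of_nonneg_left _ (by linarith)
          linarith
      _ ≤ k * (NN k s : ℝ) * s := by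
          apply mul_le_mul_of_nonneg_right _ h6
          exact mul_le_mul_of_nonneg_right h1.le h5

end UNI

open UNI in
theorem stmt_UNI : Stmt_UNI := by
  intro k C p q Pl Pu W lam ζ c _ _ hc hL K₁ B hK hB ε₁ η hε hη
  have hk : 0 < k := by have := W.hk; omega
  have hk' : (1 : ℝ) ≤ k := by exact_mod_cast hk
  have hlog : 0 ≤ Real.log k := Real.log_nonneg hk'
  set cc := min (min c η) (ε₁ ^ 2 / 2) with hcc
  have hcc0 : 0 < cc := lt_min (lt_min hc hη) (by positivity)
  obtain ⟨nb₀, hnb₀⟩ := exists_nat_ge ((4 * Real.log k + 1) / (cc / 2))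
  set nb := nb₀ + 1 with hnb
  have hnb1 : 4 * Real.log k + 1 ≤ nb * (cc / 2) := by
    rw [div_le_iff₀ (by positivity)] at hnb₀
    refine hnb₀.trans ?_
    apply mul_le_mul_of_nonneg_right _ (by positivity)
    rw [hnb]; push_cast; linarith
  refine ⟨nb, by omega, fun Wc => ?_⟩
  -- polynomial times exponential
  have hpoly : ∀ᶠ s : ℕ in atTop, ((k : ℝ) + 1) * (4 * ((Wc : ℝ) + 1)) ^ nb *
      ((s : ℝ) ^ (nb + 1) * Real.exp (-(s : ℝ))) ≤ 1 / 2 := by
    have h1 := (Real.tendsto_pow_mul_exp_neg_atTop_nhds_zero (nb + 1)).comp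
      (tendsto_natCast_atTop_atTop (R := ℝ))
    have h2 := h1.const_mul (((k : ℝ) + 1) * (4 * ((Wc : ℝ) + 1)) ^ nb)
    rw [mul_zero] at h2
    exact (h2.eventually (ge_mem_nhds (by norm_num : (0 : ℝ) < 1 / 2)))
  filter_upwards [cond_bad (lam := lam) W hc hK hB hε hη hL, hpoly, eventually_ge_atTop 1]
    with s hs1 hs2 hs3
  intro m hm us hus
  have hs0 : (1 : ℝ) ≤ s := by exact_mod_cast hs3
  set μ := Real.exp (cc * s / 2) with hμ
  have hμ1 : 1 ≤ μ := Real.one_le_exp (by positivity)
  have hμ0 : 0 < μ := Real.exp_pos _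
  have hμ2 : 3 / μ ^ 2 = 3 * Real.exp (-(cc * s)) := by
    rw [hμ, ← Real.exp_nat_mul, div_eq_mul_inv, ← Real.exp_neg]
    congr 2; push_cast; ring
  have hmain := union_family hk nb (Wc * s) m (bb k s) μ hμ1
    (fun vs i t => Bad k s (B * s) nb K₁ lam ζ ε₁ us vs i t)
    (fun vs i t _ _ => Bad_congr fun i' hi' => Wd_take vs hi')
    (fun h i t ℓ _ ht hh hℓ => by
      rw [hμ2]
      exact hs1 nb Wc us h i t ℓ (hus t ht).2 hh hℓ)
  refine le_trans ?_ (hmain.trans ?_)
  · refine Ex_ind_mono fun y _ hy => ?_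
    unfold GoodY at hy
    push Not at hy
    obtain ⟨vs, hvs, hbad⟩ := hy
    refine ⟨vs, hvs, fun t ht => ?_⟩
    classical
    have h1 := hbad t ht
    have h2 : ∑ i ∈ Finset.range m, ind (Bad k s (B * s) nb K₁ lam ζ ε₁ us vs i t) =
        (((Finset.range m).filter fun i => Bad k s (B * s) nb K₁ lam ζ ε₁ us vs i t).card :
          ℝ) := by
      rw [Finset.card_filter]
      push_cast
      refine Finset.sum_congr rfl fun i _ => ?_
      rw [ind_eq_ite]
    rw [h2]
    exact_mod_cast h1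
  · apply pow_le_pow_left₀ (by positivity)
    -- the base
    have hb1 : (bb k s : ℝ) + 1 ≤ ((k : ℝ) + 1) * s * Real.exp (4 * Real.log k * s) := by
      have h1 : (bb k s : ℝ) ≤ k * (k : ℝ) ^ (4 * s) * s := by exact_mod_cast bb_le W s
      have h2 : (k : ℝ) ^ (4 * s) = Real.exp (4 * Real.log k * s) := by
        rw [← Real.rpow_natCast, Real.rpow_def_of_pos (by positivity)]
        congr 1; push_cast; ring
      have h3 : 1 ≤ Real.exp (4 * Real.log k * s) := Real.one_le_exp (by positivity)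
      rw [h2] at h1
      nlinarith
    have hb2 : (4 * (((Wc * s : ℕ) : ℝ) + 1) / μ) ^ nb ≤
        (4 * ((Wc : ℝ) + 1)) ^ nb * (s : ℝ) ^ nb * Real.exp (-((4 * Real.log k + 1) * s)) := by
      rw [div_pow, div_eq_mul_inv]
      apply mul_le_mul
      · rw [← mul_pow]
        apply pow_le_pow_left₀ (by positivity)
        push_cast
        nlinarith
      · rw [hμ, ← Real.exp_nat_mul, ← Real.exp_neg]
        apply Real.exp_le_exp.mpr
        have := mul_le_mul_of_nonneg_right hnb1 (by linarith : (0 : ℝ) ≤ s)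
        nlinarith
      · positivity
      · positivity
    calc ((bb k s : ℝ) + 1) * (4 * (((Wc * s : ℕ) : ℝ) + 1) / μ) ^ nb
        ≤ (((k : ℝ) + 1) * s * Real.exp (4 * Real.log k * s)) *
          ((4 * ((Wc : ℝ) + 1)) ^ nb * (s : ℝ) ^ nb *
            Real.exp (-((4 * Real.log k + 1) * s))) := by
          apply mul_le_mul hb1 hb2 (by positivity) (by positivity)
      _ = ((k : ℝ) + 1) * (4 * ((Wc : ℝ) + 1)) ^ nb *
          ((s : ℝ) ^ (nb + 1) * (Real.exp (4 * Real.log k * s) *
            Real.exp (-((4 * Real.log k + 1) * s)))) := by ring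
      _ = ((k : ℝ) + 1) * (4 * ((Wc : ℝ) + 1)) ^ nb *
          ((s : ℝ) ^ (nb + 1) * Real.exp (-(s : ℝ))) := by
          rw [← Real.exp_add]; congr 3; ring
      _ ≤ 1 / 2 := hs2

end

end Pool.Agent.LCSV
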